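import Pool.Agent.W251.EX.Defs
import Pool.Agent.W540.EC.A2

/-!
Project EX (MP_391708_nt): functions on the trees for general labels.
-/

set_option autoImplicit false

namespace Pool.Agent.W32.EX

open Finset Filter
open Pool.Agent.W78.GA
open Pool.Agent.W78.EC
open Pool.Agent.W540.EC (co co_comb cd_co co_inj dv_res res_mem dv_second PQ_mem good_edge co_lt
  card_pairs)

section

variable {A : Type}

/-- the function on trees, before the truncation -/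
noncomputable def Y0 (G : A → A → ℝ) (Q p : ℕ) (r : ℤ) (T : Tr A) (y : ℕ × ℕ × ℕ × ℕ) : ℝ :=
  ((p : ℝ) + 1) / (2 * Q) * ((pts T (1, 0) (0, 1)).map (fun q1 =>
    ((pts T (1, 0) (0, 1)).map (fun q2 => if cd q1.1 q2.1 = p ∧ dv p r y q1.1 then
      G q1.2 q2.2 else 0)).sum)).sum

/-- the double sum over the cone -/
theorem Y0_eq (h6 : S_PTS) (G : A → A → ℝ) (lab : Gi → A) {Y X : ℝ} (hY : 2 ≤ Y) (hYX : Y ≤ X)
    {e : Gi × Gi} (he : e ∈ edge 0 1 Y) (Q p : ℕ) (r : ℤ) (y : ℕ × ℕ × ℕ × ℕ) :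
    Y0 G Q p r (TT lab X e) y = ((p : ℝ) + 1) / (2 * Q) *
      ∑ z ∈ cone X e.1 e.2, ∑ w ∈ cone X e.1 e.2,
        if dt z w = p ∧ dv p r y (co e z) then G (lab z) (lab w) else 0 := by
  have hdt : dt e.1 e.2 = 1 := by
    unfold edge at he
    rw [mem_filter] at he
    exact he.2.1
  unfold Y0
  congr 1
  -- the inner sum
  have h1 : ∀ q1 : (ℕ × ℕ) × A, ((pts (TT lab X e) (1, 0) (0, 1)).map (fun q2 =>
      if cd q1.1 q2.1 = p ∧ dv p r y q1.1 then G q1.2 q2.2 else 0)).sum =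
      ∑ w ∈ cone X e.1 e.2, if cd q1.1 (co e w) = p ∧ dv p r y q1.1 then
        G q1.2 (lab w) else 0 := by
    intro q1
    refine h6 A lab Y X e (fun x l => if cd q1.1 x = p ∧ dv p r y q1.1 then
      G q1.2 l else 0) _ hY hYX he ?_
    intro x
    rw [co_comb hdt]
  have h2 := h6 A lab Y X e (fun x l => ∑ w ∈ cone X e.1 e.2,
    if cd x (co e w) = p ∧ dv p r y x then G l (lab w) else 0)
    (fun z => ∑ w ∈ cone X e.1 e.2,
      if cd (co e z) (co e w) = p ∧ dv p r y (co e z) then G (lab z) (lab w) else 0) hY hYX he (by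
      intro x
      rw [co_comb hdt])
  simp only [h1]
  rw [h2]
  refine sum_congr rfl fun z hz => sum_congr rfl fun w hw => ?_
  rw [cd_co hdt hz hw]

/-- bound of the tree functions -/
theorem Y0_bound (h6 : S_PTS) (h11 : S_DTB) {G : A → A → ℝ} (hG : ∀ a b, |G a b| ≤ 1)
    (lab : Gi → A) {K : ℕ} {κ : ℝ} {Q : ℕ} {X : ℝ} (hK : 1 ≤ K)
    (hκ : 0 < κ) (hQ : (K : ℝ) / κ < Q) (hX : 2 * (K * Q : ℝ) ≤ X) {e : Gi × Gi}
    (he : e ∈ good K κ Q X) {B C₀ : ℕ} (hC₀ : (K : ℝ) / κ ≤ C₀)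
    (hB : ∀ (Q p : ℕ) (r : ℤ) (y : ℕ × ℕ × ℕ × ℕ) (R : ℕ), p ∈ PQ Q →
      R ^ 2 ≤ C₀ * Q → y ∈ SL p →
      (((range (R + 1) ×ˢ range (R + 1)) ×ˢ (range (R + 1) ×ˢ range (R + 1))).filter
        (fun q => cd q.1 q.2 = p ∧ dv p r y q.1 ∧ dv p r y q.2)).card ≤ B) {p : ℕ} (hp : p ∈ PQ Q)
    (r : ℤ) {y : ℕ × ℕ × ℕ × ℕ} (hy : y ∈ SL p) :
    |Y0 G Q p r (TT lab X e) y| ≤ 2 * B := by
  have hK0 : (0 : ℝ) < K := by exact_mod_cast hK
  have hK1 : (1 : ℝ) ≤ K := by exact_mod_cast hK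
  have hQ0 : (0 : ℝ) < Q := lt_trans (div_pos hK0 hκ) hQ
  have hQ1 : 1 ≤ Q := by exact_mod_cast hQ0
  have hQ1' : (1 : ℝ) ≤ Q := by exact_mod_cast hQ1
  have hKQ : (0 : ℝ) < K * Q := by positivity
  have hY : 2 ≤ X / (K * Q) := by
    rw [le_div_iff₀ hKQ]
    exact hX
  have hYX : X / (K * Q) ≤ X := by
    have hX0 : 0 ≤ X := le_trans (by positivity) hX
    exact div_le_self hX0 (by nlinarith)
  rw [Y0_eq h6 G lab hY hYX (good_edge he).1 Q p r y, abs_mul]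
  have h1 : |((p : ℝ) + 1) / (2 * Q)| ≤ 2 := by
    rw [abs_of_nonneg (by positivity), div_le_iff₀ (by positivity)]
    have : (p : ℝ) ≤ 2 * Q := by exact_mod_cast (PQ_mem hp).2.1
    linarith
  have h2 : |∑ z ∈ cone X e.1 e.2, ∑ w ∈ cone X e.1 e.2,
        if dt z w = p ∧ dv p r y (co e z) then G (lab z) (lab w) else 0| ≤ B := by
    rw [← sum_product']
    refine (abs_sum_le_sum_abs _ _).trans ?_
    have h3 : ∀ q ∈ cone X e.1 e.2 ×ˢ cone X e.1 e.2,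
        |if dt q.1 q.2 = p ∧ dv p r y (co e q.1) then G (lab q.1) (lab q.2) else 0| ≤
        if dt q.1 q.2 = p ∧ dv p r y (co e q.1) then 1 else 0 := by
      intro q _
      split_ifs
      · exact hG _ _
      · simp
    refine (sum_le_sum h3).trans ?_
    rw [sum_boole]
    exact_mod_cast card_pairs h11 hK hκ hQ hX he hC₀ hB hp r hy
  calc |((p : ℝ) + 1) / (2 * Q)| * _ ≤ 2 * B := mul_le_mul h1 h2 (abs_nonneg _) (by norm_num)

/-- average of the tree functions -/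
theorem Y0_avg (h6 : S_PTS) (h7 : S_AVG) (h11 : S_DTB) (G : A → A → ℝ)
    (lab : Gi → A) {K : ℕ} {κ : ℝ} {Q : ℕ} {X : ℝ} (hK : 1 ≤ K)
    (hκ : 0 < κ) (hQ : (K : ℝ) / κ < Q) (hX : 2 * (K * Q : ℝ) ≤ X) {e : Gi × Gi}
    (he : e ∈ good K κ Q X) {p : ℕ} (hp : p ∈ PQ Q) (r : ℤ) :
    (∑ y ∈ SL p, Y0 G Q p r (TT lab X e) y) / ((SL p).card : ℝ) =
      1 / (2 * Q) * ∑ z ∈ cone X e.1 e.2, ∑ w ∈ cone X e.1 e.2,
        if dt z w = p then G (lab z) (lab w) else 0 := by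
  have hK0 : (0 : ℝ) < K := by exact_mod_cast hK
  have hK1 : (1 : ℝ) ≤ K := by exact_mod_cast hK
  have hQ0 : (0 : ℝ) < Q := lt_trans (div_pos hK0 hκ) hQ
  have hQ1 : 1 ≤ Q := by exact_mod_cast hQ0
  have hQ1' : (1 : ℝ) ≤ Q := by exact_mod_cast hQ1
  have hKQ : (0 : ℝ) < K * Q := by positivity
  have hY : 2 ≤ X / (K * Q) := by
    rw [le_div_iff₀ hKQ]
    exact hX
  have hYX : X / (K * Q) ≤ X := by
    have hX0 : 0 ≤ X := le_trans (by positivity) hX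
    exact div_le_self hX0 (by nlinarith)
  have hp1 : (0 : ℝ) < (p : ℝ) + 1 := by positivity
  have h1 : ∀ y ∈ SL p, Y0 G Q p r (TT lab X e) y = ((p : ℝ) + 1) / (2 * Q) *
      ∑ z ∈ cone X e.1 e.2, ∑ w ∈ cone X e.1 e.2,
        (if dt z w = p then G (lab z) (lab w) else 0) *
          (if dv p r y (co e z) then 1 else 0) := by
    intro y _
    rw [Y0_eq h6 G lab hY hYX (good_edge he).1 Q p r y]
    congr 1
    refine sum_congr rfl fun z _ => sum_congr rfl fun w _ => ?_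
    by_cases ha : dt z w = p <;> by_cases hb : dv p r y (co e z) <;> simp [ha, hb]
  rw [sum_congr rfl h1, ← mul_sum, mul_div_assoc]
  have h2 : (∑ y ∈ SL p, ∑ z ∈ cone X e.1 e.2, ∑ w ∈ cone X e.1 e.2,
        (if dt z w = p then G (lab z) (lab w) else 0) *
          (if dv p r y (co e z) then (1 : ℝ) else 0)) /
        ((SL p).card : ℝ) = ∑ z ∈ cone X e.1 e.2, ∑ w ∈ cone X e.1 e.2,
        (if dt z w = p then G (lab z) (lab w) else 0) * (1 / ((p : ℝ) + 1)) := by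
    rw [sum_comm, sum_div]
    refine sum_congr rfl fun z hz => ?_
    rw [sum_comm, sum_div]
    refine sum_congr rfl fun w _ => ?_
    rw [← mul_sum, mul_div_assoc]
    congr 1
    exact h7 p r (co e z) (PQ_mem hp).2.2.1 (fun h => co_lt h11 hK hκ hQ hX he hz hp h.1)
  rw [h2]
  simp only [← sum_mul]
  field_simp

/-- the truncated functions -/
noncomputable def YY (G : A → A → ℝ) (B Q p : ℕ) (r : ℤ) (T : Tr A) (y : ℕ × ℕ × ℕ × ℕ) : ℝ :=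
  if |Y0 G Q p r T y| ≤ 2 * B then Y0 G Q p r T y else 0

theorem YY_le (G : A → A → ℝ) (B Q p : ℕ) (r : ℤ) (T : Tr A) (y : ℕ × ℕ × ℕ × ℕ) :
    |YY G B Q p r T y| ≤ 2 * B := by
  unfold YY
  split_ifs with h
  · exact h
  · simp

open scoped Classical in
/-- the value at the residues -/
theorem YY_res (h6 : S_PTS) (h11 : S_DTB) {G : A → A → ℝ} (hG : ∀ a b, |G a b| ≤ 1)
    (lab : Gi → A) {K : ℕ} {κ : ℝ} {Q : ℕ} {X : ℝ} {B C₀ : ℕ} (hK : 1 ≤ K)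
    (hκ : 0 < κ) (hQ : (K : ℝ) / κ < Q) (hX : 2 * (K * Q : ℝ) ≤ X) {e : Gi × Gi}
    (he : e ∈ good K κ Q X) (hC₀ : (K : ℝ) / κ ≤ C₀)
    (hB : ∀ (Q p : ℕ) (r : ℤ) (y : ℕ × ℕ × ℕ × ℕ) (R : ℕ), p ∈ PQ Q →
      R ^ 2 ≤ C₀ * Q → y ∈ SL p →
      (((range (R + 1) ×ˢ range (R + 1)) ×ˢ (range (R + 1) ×ˢ range (R + 1))).filter
        (fun q => cd q.1 q.2 = p ∧ dv p r y q.1 ∧ dv p r y q.2)).card ≤ B) {p : ℕ} (hp : p ∈ PQ Q)
    (r : ℤ) : YY G B Q p r (TT lab X e) (res p e) = ((p : ℝ) + 1) / (2 * Q) *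
      ∑ z ∈ cone X e.1 e.2, ∑ w ∈ cone X e.1 e.2,
        if dt z w = p ∧ lat p r z then G (lab z) (lab w) else 0 := by
  have hK0 : (0 : ℝ) < K := by exact_mod_cast hK
  have hK1 : (1 : ℝ) ≤ K := by exact_mod_cast hK
  have hQ0 : (0 : ℝ) < Q := lt_trans (div_pos hK0 hκ) hQ
  have hQ1 : 1 ≤ Q := by exact_mod_cast hQ0
  have hQ1' : (1 : ℝ) ≤ Q := by exact_mod_cast hQ1
  have hKQ : (0 : ℝ) < K * Q := by positivity
  have hY : 2 ≤ X / (K * Q) := by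
    rw [le_div_iff₀ hKQ]
    exact hX
  have hYX : X / (K * Q) ≤ X := by
    have hX0 : 0 ≤ X := le_trans (by positivity) hX
    exact div_le_self hX0 (by nlinarith)
  have hdt := (good_edge he).2
  have hp0 := (PQ_mem hp).2.2.1.pos
  have hbd := Y0_bound h6 h11 hG lab hK hκ hQ hX he hC₀
    (by
      intro Q' p' r' y' R' h1 h2 h3
      exact hB Q' p' r' y' R' h1 h2 h3) hp r (res_mem hdt hp0)
  unfold YY
  rw [if_pos hbd, Y0_eq h6 G lab hY hYX (good_edge he).1 Q p r (res p e)]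
  congr 1
  refine sum_congr rfl fun z hz => sum_congr rfl fun w _ => ?_
  refine if_congr ?_ rfl rfl
  rw [dv_res hdt hp0 r hz]

/-- the average -/
theorem YY_av (h6 : S_PTS) (h7 : S_AVG) (h11 : S_DTB) {G : A → A → ℝ} (hG : ∀ a b, |G a b| ≤ 1)
    (lab : Gi → A) {K : ℕ} {κ : ℝ} {Q : ℕ} {X : ℝ} {B C₀ : ℕ} (hK : 1 ≤ K)
    (hκ : 0 < κ) (hQ : (K : ℝ) / κ < Q) (hX : 2 * (K * Q : ℝ) ≤ X) {e : Gi × Gi}
    (he : e ∈ good K κ Q X) (hC₀ : (K : ℝ) / κ ≤ C₀)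
    (hB : ∀ (Q p : ℕ) (r : ℤ) (y : ℕ × ℕ × ℕ × ℕ) (R : ℕ), p ∈ PQ Q →
      R ^ 2 ≤ C₀ * Q → y ∈ SL p →
      (((range (R + 1) ×ˢ range (R + 1)) ×ˢ (range (R + 1) ×ˢ range (R + 1))).filter
        (fun q => cd q.1 q.2 = p ∧ dv p r y q.1 ∧ dv p r y q.2)).card ≤ B) {p : ℕ} (hp : p ∈ PQ Q)
    (r : ℤ) : av p (YY G B Q p r) (TT lab X e) = 1 / (2 * Q) *
      ∑ z ∈ cone X e.1 e.2, ∑ w ∈ cone X e.1 e.2,
        if dt z w = p then G (lab z) (lab w) else 0 := by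
  unfold av
  rw [← Y0_avg h6 h7 h11 G lab hK hκ hQ hX he hp r]
  congr 1
  refine sum_congr rfl fun y hy => ?_
  unfold YY
  rw [if_pos (Y0_bound h6 h11 hG lab hK hκ hQ hX he hC₀ hB hp r hy)]

end

theorem cplx (a b c : ℝ) (s t : Finset Gi) (F : Gi → Gi → ℂ)
    (h1 : a = c * ∑ z ∈ s, ∑ w ∈ t, (F z w).re)
    (h2 : b = c * ∑ z ∈ s, ∑ w ∈ t, (F z w).im) :
    (a : ℂ) + Complex.I * (b : ℂ) = (c : ℂ) * ∑ z ∈ s, ∑ w ∈ t, F z w := by
  apply Complex.ext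
  · rw [h1]
    simp [Complex.re_sum]
  · rw [h2]
    simp [Complex.im_sum]

theorem zx (h6 : S_PTS) (h7 : S_AVG) (h8 : S_BDD) (h11 : S_DTB) :
    Pool.Agent.W251.EX.S_ZX := by
  intro K κ hK hκ
  obtain ⟨B, hB⟩ := h8 ⌈(K : ℝ) / κ⌉₊
  have hC₀ : (K : ℝ) / κ ≤ (⌈(K : ℝ) / κ⌉₊ : ℕ) := Nat.le_ceil _
  refine ⟨2 * B, fun Q hQ A d₁ d₂ hd₁ hd₂ r => ?_⟩
  have hG1 : ∀ a b : A, |(d₁ a * d₂ b).re| ≤ 1 := by
    intro a b
    refine (Complex.abs_re_le_norm _).trans ?_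
    rw [norm_mul]
    exact mul_le_one₀ (hd₁ a) (norm_nonneg _) (hd₂ b)
  have hG2 : ∀ a b : A, |(d₁ a * d₂ b).im| ≤ 1 := by
    intro a b
    refine (Complex.abs_im_le_norm _).trans ?_
    rw [norm_mul]
    exact mul_le_one₀ (hd₁ a) (norm_nonneg _) (hd₂ b)
  refine ⟨fun p => YY (fun a b => (d₁ a * d₂ b).re) B Q p (r p),
    fun p => YY (fun a b => (d₁ a * d₂ b).im) B Q p (r p),
    fun p T y => ⟨YY_le _ _ _ _ _ _ _, YY_le _ _ _ _ _ _ _⟩, ?_⟩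
  intro lab X hX e he p hp
  constructor
  · apply cplx
    · refine (YY_res h6 h11 hG1 lab hK hκ hQ hX he hC₀ hB hp (r p)).trans ?_
      refine congrArg _ (sum_congr rfl fun z _ => sum_congr rfl fun w _ => ?_)
      split_ifs <;> simp
    · refine (YY_res h6 h11 hG2 lab hK hκ hQ hX he hC₀ hB hp (r p)).trans ?_
      refine congrArg _ (sum_congr rfl fun z _ => sum_congr rfl fun w _ => ?_)
      split_ifs <;> simp
  · apply cplx
    · refine (YY_av h6 h7 h11 hG1 lab hK hκ hQ hX he hC₀ hB hp (r p)).trans ?_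
      refine congrArg _ (sum_congr rfl fun z _ => sum_congr rfl fun w _ => ?_)
      split_ifs <;> simp
    · refine (YY_av h6 h7 h11 hG2 lab hK hκ hQ hX he hC₀ hB hp (r p)).trans ?_
      refine congrArg _ (sum_congr rfl fun z _ => sum_congr rfl fun w _ => ?_)
      split_ifs <;> simp

end Pool.Agent.W32.EX
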